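import Pool.Agent.Helper46.C2.St

set_option autoImplicit false

namespace Pool.Agent.Helper19.C2

open Pool.Agent.Helper46.C2 Polynomial

/-- Nonzero polynomials of degree less than the residue degree are not in the ideal. -/
theorem exi_small (h3 : StFIB) (k : ℕ) (L : Type) [CommRing L] (x : Lˣ) (hR : R2 k L x)
    (ev : (ZMod 2)[X] →+* L) (hev : ev X = (x : L)) (I : Ideal L) (f : ℕ) (hI : I.IsMaximal)
    (hf : Nat.card (L ⧸ I) = 2 ^ f) (n : ℕ) (hn : n ≤ f) (g : (ZMod 2)[X]) (hg : g ≠ 0)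
    (hd : g.degree < n) : ev g ∉ I := by
  intro hgI
  have h := h3 k L x hR ev hev I f hI hf n 0
  rw [Nat.sub_eq_zero_of_le hn, pow_zero] at h
  have : Finite (Polynomial.degreeLT (ZMod 2) n) :=
    Finite.of_equiv _ (Polynomial.degreeLTEquiv (ZMod 2) n).symm.toEquiv
  have hs := Finite.card_le_one_iff_subsingleton.mp h
  have h0 : ev ((0 : Polynomial.degreeLT (ZMod 2) n) : (ZMod 2)[X]) - 0 ∈ I := by simp
  have hg1 : ev (((⟨g, Polynomial.mem_degreeLT.mpr hd⟩ : Polynomial.degreeLT (ZMod 2) n)) :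
      (ZMod 2)[X]) - 0 ∈ I := by simpa using hgI
  have he := @Subsingleton.elim _ hs ⟨⟨g, Polynomial.mem_degreeLT.mpr hd⟩, hg1⟩ ⟨0, h0⟩
  have he2 := congrArg Subtype.val he
  exact hg (congrArg Subtype.val he2)

theorem exi_count (L : Type) [CommRing L] [Finite (Ideal L)] (fI : Ideal L → ℕ)
    (S : Finset (Ideal L)) (D n : ℕ)
    (hS : ∀ I ∈ S, I.IsMaximal ∧ Nat.card (L ⧸ I) = 2 ^ fI I ∧ 3 ≤ fI I ∧ fI I ≤ D) :
    ∑ I ∈ S, 3 * 2 ^ (n - fI I) ≤ ∑ f ∈ Finset.Icc 3 D, 3 * NF L f * 2 ^ (n - f) := by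
  classical
  rw [← Finset.sum_fiberwise_of_maps_to (t := Finset.Icc 3 D) (g := fI) (s := S)
    (fun I hI => Finset.mem_Icc.mpr ⟨(hS I hI).2.2.1, (hS I hI).2.2.2⟩)]
  apply Finset.sum_le_sum
  intro f _
  have hcard : (S.filter (fun I => fI I = f)).card ≤ NF L f := by
    have h1 : (S.filter (fun I => fI I = f)).card
        = Nat.card {I // I ∈ S.filter (fun I => fI I = f)} := by
      rw [Nat.card_eq_fintype_card, Fintype.card_coe]
    rw [h1]
    refine Nat.card_le_card_of_injective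
      (fun I : {I // I ∈ S.filter (fun I => fI I = f)} =>
        (⟨I.1, (hS I.1 (Finset.mem_filter.mp I.2).1).1,
          (hS I.1 (Finset.mem_filter.mp I.2).1).2.1.trans
            (congrArg (fun z => 2 ^ z) (Finset.mem_filter.mp I.2).2)⟩ :
          {I : Ideal L // I.IsMaximal ∧ Nat.card (L ⧸ I) = 2 ^ f})) ?_
    intro A B h
    have h' := congrArg Subtype.val h
    exact Subtype.ext h'
  calc ∑ I ∈ S with fI I = f, 3 * 2 ^ (n - fI I)
      = ∑ I ∈ S with fI I = f, 3 * 2 ^ (n - f) := by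
        apply Finset.sum_congr rfl
        intro I hI
        rw [(Finset.mem_filter.mp hI).2]
    _ = (S.filter (fun I => fI I = f)).card * (3 * 2 ^ (n - f)) := by
        rw [Finset.sum_const, smul_eq_mul]
    _ ≤ NF L f * (3 * 2 ^ (n - f)) := Nat.mul_le_mul_right _ hcard
    _ = 3 * NF L f * 2 ^ (n - f) := by ring

theorem exi_nd {D : ℕ} {g : (ZMod 2)[X]} (hg : g.degree < D) : (X ^ D + g).natDegree = D := by
  apply Polynomial.natDegree_eq_of_degree_eq_some
  rw [Polynomial.degree_add_eq_left_of_degree_lt, Polynomial.degree_X_pow]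
  rwa [Polynomial.degree_X_pow]

theorem exi_unit (L : Type) [CommRing L] (y : L) (h : ∀ I : Ideal L, I.IsMaximal → y ∉ I) :
    IsUnit y := by
  by_contra hy
  obtain ⟨I, hI, hyI⟩ := exists_max_ideal_of_mem_nonunits (a := y) hy
  exact h I hI hyI

theorem exi_notmem {L : Type} [CommRing L] {I : Ideal L} (hI : I.IsMaximal) {y : L}
    (hy : IsUnit y) : y ∉ I := fun h => hI.ne_top (Ideal.eq_top_of_isUnit_mem I h hy)

theorem exi_two {L : Type} [CommRing L] (two : (2 : L) = 0) (y : L) : y + y = 0 := by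
  rw [← two_mul, two, zero_mul]

theorem exi_lin (p : (ZMod 2)[X]) (hp : Irreducible p) (hdeg : 5 ≤ p.natDegree)
    (l a : (ZMod 2)[X]) (hl : l.natDegree = 1) : p + l * a ≠ 0 := by
  intro h
  have hd : l ∣ p := ⟨-a, by linear_combination h⟩
  obtain ⟨c, hc⟩ := hd
  rcases hp.isUnit_or_isUnit hc with hu | hu
  · have := Polynomial.natDegree_eq_zero_of_isUnit hu
    omega
  · have h0 := Polynomial.natDegree_eq_zero_of_isUnit hu
    have hle := Polynomial.natDegree_mul_le (p := l) (q := c)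
    rw [← hc] at hle
    omega

theorem exi_deg (p : (ZMod 2)[X]) (hpm : p.Monic) (l a : (ZMod 2)[X]) (hl : l.Monic)
    (hl1 : l.natDegree = 1) (ha : a.Monic) (hd : a.natDegree + 1 = p.natDegree) :
    (p + l * a).degree < ((a.natDegree + 1 : ℕ) : WithBot ℕ) := by
  have hla : (l * a).Monic := hl.mul ha
  have hda : (l * a).natDegree = p.natDegree := by
    rw [hl.natDegree_mul ha, hl1, ← hd]; ring
  have hneg : p + l * a = p - l * a := by
    rw [sub_eq_add_neg]
    congr 1
    have h2 : (l * a) + (l * a) = 0 := CharTwo.add_self_eq_zero _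
    exact eq_neg_of_add_eq_zero_left h2
  rw [hneg, hd, ← Polynomial.degree_eq_natDegree hpm.ne_zero]
  apply Polynomial.degree_sub_lt_left _ hpm.ne_zero
  · rw [hpm.leadingCoeff, hla.leadingCoeff]
  · rw [Polynomial.degree_eq_natDegree hpm.ne_zero, Polynomial.degree_eq_natDegree hla.ne_zero, hda]

theorem exi_key (h3 : StFIB) (k : ℕ) (L : Type) [CommRing L] (x : Lˣ) (hR : R2 k L x)
    (ev : (ZMod 2)[X] →+* L) (hev : ev X = (x : L)) (p : (ZMod 2)[X]) (hp : Irreducible p)
    (hdeg : 5 ≤ p.natDegree) (hpm : p.Monic) (fI : Ideal L → ℕ)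
    (hfI : ∀ I : Ideal L, I.IsMaximal → 2 ≤ fI I ∧ Nat.card (L ⧸ I) = 2 ^ fI I)
    (a : (ZMod 2)[X]) (ha : a.Monic) (hd : a.natDegree + 1 = p.natDegree)
    (hs : ∀ I : Ideal L, I.IsMaximal → fI I ≤ a.natDegree →
      ev a ∉ I ∧ ev (p + X * a) ∉ I ∧ ev (p + (X + 1) * a) ∉ I) :
    ∃ a : (ZMod 2)[X], a.Monic ∧ a.natDegree + 1 = p.natDegree ∧ IsUnit (ev a) ∧
      IsUnit (ev (p + X * a)) ∧ IsUnit (ev (p + (X + 1) * a)) := by
  have hbig : ∀ I : Ideal L, I.IsMaximal →
      ev a ∉ I ∧ ev (p + X * a) ∉ I ∧ ev (p + (X + 1) * a) ∉ I := by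
    intro I hI
    by_cases hle : fI I ≤ a.natDegree
    · exact hs I hI hle
    · push Not at hle
      have hX1 : (X + 1 : (ZMod 2)[X]).natDegree = 1 := by
        have := Polynomial.natDegree_X_add_C (1 : ZMod 2)
        simpa using this
      have hX1m : (X + 1 : (ZMod 2)[X]).Monic := by
        have := Polynomial.monic_X_add_C (1 : ZMod 2)
        simpa using this
      refine ⟨?_, ?_, ?_⟩
      · refine exi_small h3 k L x hR ev hev I (fI I) hI (hfI I hI).2 (a.natDegree + 1) hle a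
          ha.ne_zero ?_
        rw [Polynomial.degree_eq_natDegree ha.ne_zero]
        exact_mod_cast Nat.lt_succ_self _
      · exact exi_small h3 k L x hR ev hev I (fI I) hI (hfI I hI).2 (a.natDegree + 1) hle _
          (exi_lin p hp hdeg X a Polynomial.natDegree_X)
          (exi_deg p hpm X a Polynomial.monic_X Polynomial.natDegree_X ha hd)
      · exact exi_small h3 k L x hR ev hev I (fI I) hI (hfI I hI).2 (a.natDegree + 1) hle _
          (exi_lin p hp hdeg (X + 1) a hX1)
          (exi_deg p hpm (X + 1) a hX1m hX1 ha hd)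
  exact ⟨a, ha, hd, exi_unit L _ fun I hI => (hbig I hI).1,
    exi_unit L _ fun I hI => (hbig I hI).2.1, exi_unit L _ fun I hI => (hbig I hI).2.2⟩

/-- the three conditions follow from the three conditions of CH -/
theorem exi_conv {L : Type} [CommRing L] (two : (2 : L) = 0) (I : Ideal L) (α π : L) (x y : Lˣ)
    (hy : (y : L) = x + 1)
    (h0 : α - 0 ∉ I) (h1 : α - π * ((x⁻¹ : Lˣ) : L) ∉ I) (h2 : α - π * ((y⁻¹ : Lˣ) : L) ∉ I) :
    α ∉ I ∧ π + x * α ∉ I ∧ π + (x + 1) * α ∉ I := by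
  have aux : ∀ z : Lˣ, α - π * ((z⁻¹ : Lˣ) : L) ∉ I → π + z * α ∉ I := by
    intro z hz h
    apply hz
    have h3 := I.mul_mem_left ((z⁻¹ : Lˣ) : L) h
    have h4 : ((z⁻¹ : Lˣ) : L) * (π + z * α) = α - π * ((z⁻¹ : Lˣ) : L) := by
      have hz1 : ((z⁻¹ : Lˣ) : L) * z = 1 := by simp
      linear_combination α * hz1 + π * ((z⁻¹ : Lˣ) : L) * two
    rwa [h4] at h3
  refine ⟨by simpa using h0, aux x h1, ?_⟩
  have := aux y h2
  rwa [hy] at this

/-- in a residue field with four elements `x² + x + 1 = 0` -/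
theorem exi_four (k : ℕ) (L : Type) [CommRing L] (x : Lˣ) (hR : R2 k L x) (I : Ideal L)
    (hI : I.IsMaximal) (hc : Nat.card (L ⧸ I) = 2 ^ 2) : (x : L) ^ 2 + x + 1 ∈ I := by
  have := hI
  let _ : Field (L ⧸ I) := Ideal.Quotient.field I
  have hfin : Finite (L ⧸ I) := Nat.finite_of_card_ne_zero (by rw [hc]; norm_num)
  let _ : Fintype (L ⧸ I) := Fintype.ofFinite _
  have hk := congrArg (Ideal.Quotient.mk I) hR.xk
  have h2 := congrArg (Ideal.Quotient.mk I) hR.two
  have hu : IsUnit (Ideal.Quotient.mk I (x : L)) := x.isUnit.map _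
  rw [← Ideal.Quotient.eq_zero_iff_mem]
  simp only [map_add, map_pow, map_one, map_ofNat, map_zero] at hk h2 ⊢
  have hpow := FiniteField.pow_card (Ideal.Quotient.mk I (x : L))
  rw [Nat.card_eq_fintype_card] at hc
  rw [hc] at hpow
  generalize Ideal.Quotient.mk I (x : L) = ξ at hk hpow hu ⊢
  have hξ0 : ξ ≠ 0 := hu.ne_zero
  have hξ1 : ξ - 1 ≠ 0 := by
    intro h
    rw [sub_eq_zero] at h
    rw [h, one_pow] at hk
    have : (1 : L ⧸ I) = 0 := by linear_combination -hk
    exact one_ne_zero this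
  have hprod : ξ * (ξ - 1) * (ξ ^ 2 + ξ + 1) = 0 := by
    linear_combination hpow
  rcases mul_eq_zero.mp hprod with h | h
  · exact absurd h (mul_ne_zero hξ0 hξ1)
  · exact h

theorem hEXI (h1 : StLF) (h2 : StC4) (h3 : StFIB) (h4 : StCH) (h5 : StHOM) (h6 : StSID)
    (h7 : StNUM) : StEXI := by
  intro k L _ x hR ev hev p hp hdeg hup
  have hfin : Finite L := h1 k L x hR
  have hfinI : Finite (Ideal L) :=
    Finite.of_injective (fun I : Ideal L => (I : Set L)) SetLike.coe_injective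
  have two := hR.two
  have hpm : p.Monic := by
    have hlc : p.leadingCoeff ≠ 0 := Polynomial.leadingCoeff_ne_zero.mpr hp.ne_zero
    have hz : ∀ z : ZMod 2, z ≠ 0 → z = 1 := by decide
    exact hz _ hlc
  -- the numerical hypotheses
  have hn := h7 (NF L) (fun f => Nat.card {α : GaloisField 2 f // α ^ k = α + 1})
    (fun f hf => by
      have := h5 k L x hR f hf {f} (by simp [hf])
      simpa using this)
    (by
      have := h5 k L x hR 4 (by norm_num) {2, 4} (by
        intro f hf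
        simp only [Finset.mem_insert, Finset.mem_singleton] at hf
        rcases hf with rfl | rfl
        · exact ⟨by norm_num, by norm_num⟩
        · exact ⟨by norm_num, by norm_num⟩)
      rw [Finset.sum_pair (by norm_num)] at this
      exact this)
    (fun f hf => by
      have h2' : (2 : GaloisField 2 f) = 0 := CharTwo.two_eq_zero
      have := h6 (GaloisField 2 f) k h2' (by have := hR.k2; omega)
      rwa [GaloisField.card 2 f (by omega)] at this)
  obtain ⟨hN2, hA, hB⟩ := hn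
  -- residue degrees
  let fI : Ideal L → ℕ := fun I => Nat.log 2 (Nat.card (L ⧸ I))
  have hfI : ∀ I : Ideal L, I.IsMaximal → 2 ≤ fI I ∧ Nat.card (L ⧸ I) = 2 ^ fI I := by
    intro I hI
    obtain ⟨f, hf2, hf⟩ := h2 k L x hR I hI
    have hlog : fI I = f := by
      show Nat.log 2 (Nat.card (L ⧸ I)) = f
      rw [hf, Nat.log_pow (by norm_num)]
    rw [hlog]
    exact ⟨hf2, hf⟩
  obtain ⟨D, hD⟩ : ∃ D, p.natDegree = D + 1 := ⟨p.natDegree - 1, by omega⟩
  have hD4 : 4 ≤ D := by omega
  let S : Finset (Ideal L) := (Set.toFinite {I : Ideal L | I.IsMaximal ∧ 3 ≤ fI I ∧ fI I ≤ D}).toFinset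
  have hSmem : ∀ I, I ∈ S ↔ (I.IsMaximal ∧ 3 ≤ fI I ∧ fI I ≤ D) := by
    intro I
    simp [S]
  have hSc : ∀ I ∈ S, I.IsMaximal ∧ Nat.card (L ⧸ I) = 2 ^ fI I ∧ 3 ≤ fI I ∧ fI I ≤ D := by
    intro I hI
    have := (hSmem I).mp hI
    exact ⟨this.1, (hfI I this.1).2, this.2.1, this.2.2⟩
  have hcount := fun n => exi_count L fI S D n hSc
  -- the unit `x + 1`
  have hk0 : k ≠ 0 := by have := hR.k2; omega
  let y : Lˣ := x ^ k
  have hy : (y : L) = x + 1 := by
    show ((x ^ k : Lˣ) : L) = x + 1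
    rw [Units.val_pow_eq_pow_val, hR.xk]
  let r : Ideal L → Fin 3 → L := fun _ => ![0, ev p * ((x⁻¹ : Lˣ) : L), ev p * ((y⁻¹ : Lˣ) : L)]
  have hfin3 : ∀ (I : Ideal L) (a : (ZMod 2)[X]), (∀ j : Fin 3, ev a - r I j ∉ I) →
      ev a ∉ I ∧ ev (p + X * a) ∉ I ∧ ev (p + (X + 1) * a) ∉ I := by
    intro I a h
    have := exi_conv two I (ev a) (ev p) x y hy (h 0) (h 1) (h 2)
    simpa [hev] using this
  rcases Nat.lt_or_ge (NF L 2) 1 with hlt | hge
  · -- Case A
    have hN0 : NF L 2 = 0 := by omega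
    have hsum : ∑ I ∈ S, 3 * 2 ^ (D - fI I) < 2 ^ D := lt_of_le_of_lt (hcount D) (hA D)
    obtain ⟨g, hgd, hg⟩ := h4 k L x hR ev hev D 1 (X ^ D) S fI
      (fun I hI => ⟨(hSc I hI).1, (hSc I hI).2.1, by
        rw [map_one]; exact exi_notmem (hSc I hI).1 isUnit_one⟩) r hsum
    rw [one_mul] at hg
    have ham : (X ^ D + g).Monic := Polynomial.monic_X_pow_add hgd
    have had : (X ^ D + g).natDegree = D := exi_nd hgd
    refine exi_key h3 k L x hR ev hev p hp hdeg hpm fI hfI (X ^ D + g) ham (by rw [had, hD]) ?_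
    intro I hI hle
    rw [had] at hle
    apply hfin3
    apply hg I
    rw [hSmem]
    refine ⟨hI, ?_, hle⟩
    rcases Nat.lt_or_ge 2 (fI I) with h | h
    · exact h
    · exfalso
      have hf2 : fI I = 2 := le_antisymm h (hfI I hI).1
      unfold NF at hN0
      have hne : Nonempty {I : Ideal L // I.IsMaximal ∧ Nat.card (L ⧸ I) = 2 ^ 2} :=
        ⟨⟨I, hI, by rw [(hfI I hI).2, hf2]⟩⟩
      have := Nat.card_pos (α := {I : Ideal L // I.IsMaximal ∧ Nat.card (L ⧸ I) = 2 ^ 2})
      omega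
  · -- Case B
    have hsum : ∑ I ∈ S, 3 * 2 ^ (D - 2 - fI I) < 2 ^ (D - 2) :=
      lt_of_le_of_lt (hcount (D - 2)) (by
        refine lt_of_le_of_lt (le_of_eq ?_) (hB hge D hD4)
        rfl)
    let q : (ZMod 2)[X] := X ^ 2 + X + 1
    have hqm : q.Monic := by
      show (X ^ 2 + X + 1 : (ZMod 2)[X]).Monic
      monicity!
    have hqd : q.natDegree = 2 := by
      show (X ^ 2 + X + 1 : (ZMod 2)[X]).natDegree = 2
      compute_degree!
    have hqdeg : q.degree = 2 := by
      rw [Polynomial.degree_eq_natDegree hqm.ne_zero, hqd]; rfl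
    have hevq : ev q = (x : L) ^ 2 + x + 1 := by
      show ev (X ^ 2 + X + 1) = _
      simp [hev]
    let c : (ZMod 2)[X] := (p - X ^ D) %ₘ q
    have hcd : c.degree < 2 := by
      rw [← hqdeg]
      exact Polynomial.degree_modByMonic_lt _ hqm
    have hcq : c + q * ((p - X ^ D) /ₘ q) = p - X ^ D := Polynomial.modByMonic_add_div _ _
    obtain ⟨g, hgd, hg⟩ := h4 k L x hR ev hev (D - 2) q (X ^ D + c) S fI
      (fun I hI => ⟨(hSc I hI).1, (hSc I hI).2.1, exi_small h3 k L x hR ev hev I (fI I)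
        (hSc I hI).1 (hSc I hI).2.1 3 (hSc I hI).2.2.1 q hqm.ne_zero (by
          rw [hqdeg]; norm_num)⟩) r hsum
    have hDD : ((D : ℕ) : WithBot ℕ) = 2 + ((D - 2 : ℕ) : WithBot ℕ) := by
      have : D = 2 + (D - 2) := by omega
      conv_lhs => rw [this]
      push_cast
      rfl
    have hqg : (q * g).degree < D := by
      rw [Polynomial.degree_mul, hqdeg, hDD]
      exact WithBot.add_lt_add_left (by exact WithBot.coe_ne_bot) hgd
    have hcD : (c + q * g).degree < D := by
      refine lt_of_le_of_lt (Polynomial.degree_add_le _ _) (max_lt (lt_of_lt_of_le hcd ?_) hqg)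
      exact_mod_cast (by omega : 2 ≤ D)
    have hasum : X ^ D + c + q * g = X ^ D + (c + q * g) := by ring
    have ham : (X ^ D + c + q * g).Monic := by
      rw [hasum]; exact Polynomial.monic_X_pow_add hcD
    have had : (X ^ D + c + q * g).natDegree = D := by
      rw [hasum]; exact exi_nd hcD
    refine exi_key h3 k L x hR ev hev p hp hdeg hpm fI hfI _ ham (by rw [had, hD]) ?_
    intro I hI hle
    rw [had] at hle
    rcases Nat.lt_or_ge 2 (fI I) with h | h
    · apply hfin3
      apply hg I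
      rw [hSmem]
      exact ⟨hI, h, hle⟩
    · have hf2 : fI I = 2 := le_antisymm h (hfI I hI).1
      have hq0 : ev q ∈ I := by
        rw [hevq]
        exact exi_four k L x hR I hI (by rw [(hfI I hI).2, hf2])
      -- `ev a ≡ ev p`
      have hap : X ^ D + c + q * g = p + q * (g - (p - X ^ D) /ₘ q) := by
        linear_combination hcq
      set w := ev (g - (p - X ^ D) /ₘ q) with hw
      have heva : ev (X ^ D + c + q * g) = ev p + ev q * w := by
        rw [hap, map_add, map_mul]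
      have hqw : ev q * w ∈ I := I.mul_mem_right _ hq0
      refine ⟨?_, ?_, ?_⟩
      · intro h
        apply exi_notmem hI hup
        have := I.sub_mem h hqw
        rwa [heva, add_sub_cancel_right] at this
      · intro h
        rw [map_add, map_mul, hev, heva] at h
        apply exi_notmem hI (hup.mul y.isUnit)
        have h5 := I.sub_mem h (I.mul_mem_left (x : L) hqw)
        have h6 : ev p + x * (ev p + ev q * w) - x * (ev q * w) = ev p * (y : L) := by
          rw [hy]; ring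
        rwa [h6] at h5
      · intro h
        rw [map_add, map_mul, map_add, map_one, hev, heva] at h
        apply exi_notmem hI (hup.mul x.isUnit)
        have h5 := I.sub_mem h (I.mul_mem_left ((x : L) + 1) hqw)
        have h6 : ev p + (x + 1) * (ev p + ev q * w) - (x + 1) * (ev q * w) = ev p * (x : L) := by
          linear_combination ev p * two
        rwa [h6] at h5

end Pool.Agent.Helper19.C2
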